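import Pool.Agent.V8H87.EB.Tow

/-!
# The equivariant conjecture of Beilinson for abelian extensions below sharply 2-transitive groups

`N/k` is any Galois extension of number fields with group `Γ`, `K = N^U ⊆ L = N^W`, `L/K` abelian.

Suppose that every character `χ ≠ 1` of `Gal(L/K)` is of the following kind: there are a subfield
`K₀ = N^M` of `K` and a Galois extension `L'/K₀` with `L^{ker χ} ⊆ L'` whose group `Q` is sharply
2-transitive (`Q = C ⋊ H`, `C` abelian, `H` simply transitive on `C ∖ {1}`) and has the group of
translations `C = Gal(L'/K)`. Then Q1 holds for `L/K` and all `w > 1`.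

Examples: all extensions `L/K` with a group of exponent `2`; cyclic cubic extensions `L/K` such that
`L` is an `S_3`-extension of a subfield `K₀` of `K`; the Kummer extensions
`K(a_1^{1/p}, …, a_m^{1/p})/K`, where `K = k(ζ_p)`, `a_i ∈ k`, `k` is any number field with
`[k(ζ_p) : k] = p - 1`, and their subextensions.

Idea of the proof. The characters of `C` are not rational, but `Ind_C^Q χ = Ind_H^Q 1 - 1` for all
`χ ≠ 1`, so that the induced character is an integral combination of permutation characters. The
comparison of the two rational structures on `V⁺` is a `Γ`-automorphism `θ` of `V⁺` up to a real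
intertwiner with the determinants in the right field; `det(θ | χ-part)` is computed from the traces
of the powers of `θ` on the `χ`-part and these depend on the induced character only, for all
embeddings of the field of coefficients at once. Then the theorem of Borel for the fixed fields of
`H` and `M` is used.
-/

set_option autoImplicit false

namespace Pool.Agent.Results.MP_a93ca1_nt.AffineTowers

open Pool.Agent.V8H87.EB

/-- **Q1 for `L/K`, `K = N^U`, `L = N^W`, if all nontrivial characters of `Gal(L/K)` come from the
translations of sharply 2-transitive Galois extensions `L'/K₀`, `K₀ ⊆ K`.** -/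
theorem result (k N : Type) [Field k] [Field N] [NumberField k] [NumberField N] [Algebra k N]
    [FiniteDimensional k N] [IsGalois k N] (w : ℕ) (D : Borel k N w)
    (U W : Subgroup (N ≃ₐ[k] N))
    (h : ∀ (E : Type) [Field E] [CharZero E] (χ : U →* Eˣ),
      (∀ u : U, (u : N ≃ₐ[k] N) ∈ W → χ u = 1) → χ ≠ 1 →
        AffineTower U (χ.ker.map U.subtype)) :
    Q1 D U W := by
  intro E _ _ χ hχ
  by_cases h1 : χ = 1
  · rw [h1]
    exact D.comp_one E U
  · obtain ⟨H, M, hHM⟩ := (h E χ hχ h1).ind h1
    refine D.comp_perm E (ι := Bool) (fun b => if b then H else M) (fun b => if b then 1 else -1)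
      U χ ?_
    intro g
    rw [hHM g, Fintype.sum_bool]
    simp [sub_eq_add_neg]

end Pool.Agent.Results.MP_a93ca1_nt.AffineTowers
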