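import Pool.Agent.V8H87.EB.Br.Q1

/-!
# The equivariant conjecture of Beilinson: reduction to elementary Galois groups

`N/k` is a Galois extension of number fields, for example the Galois closure over `ℚ` of an abelian
extension `L/K`. If Q1 holds for all abelian extensions `L'/K'`, `k ⊆ K' ⊆ L' ⊆ N`, such that
`Gal(N/K')` is elementary (the product of a cyclic group of order prime to `p` and a `p`-group, for
some prime `p`), then Q1 holds for all abelian extensions `L/K` with `k ⊆ K ⊆ L ⊆ N`. So Q1 for all
abelian extensions of all number fields is equivalent to Q1 for the abelian extensions `L'/K'` such
that `L'` is contained in a finite Galois extension `N` of `ℚ` with an elementary, in particular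
nilpotent, group `Gal(N/K')`.

The proof contains a proof of the theorem of Brauer on induced characters, in the form: every
character induced from a linear character of a subgroup is an integral combination of characters
induced from linear characters of elementary subgroups. (Theorem of Solomon by the lemma of
Banaschewski; the step from quasi-elementary to elementary groups by the decomposition of induced
characters with respect to an abelian normal subgroup.) The obstruction to Q1 at a character depends
multiplicatively on the induced character, for all embeddings of the field of coefficients at once,
and the field of coefficients descends.
-/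

set_option autoImplicit false

namespace Pool.Agent.Results.MP_a93ca1_nt.ElementaryGroups

open Pool.Agent.V8H87.EB

/-- **If Q1 holds for the base fields `K' = N^V` with `Gal(N/K') = V` elementary, then it holds for all
`L/K`, `K = N^U`, `L = N^W`.** -/
theorem result (k N : Type) [Field k] [Field N] [NumberField k] [NumberField N] [Algebra k N]
    [FiniteDimensional k N] [IsGalois k N] (w : ℕ) (D : Borel k N w)
    (h : ∀ V W : Subgroup (N ≃ₐ[k] N), Br.Elem V → W ≤ V → Q1 D V W)
    (U W : Subgroup (N ≃ₐ[k] N)) : Q1 D U W :=
  D.q1_of_elementary h U W

end Pool.Agent.Results.MP_a93ca1_nt.ElementaryGroups
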