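import Pool.Agent.V8H87.EB.Abn

/-!
# The equivariant conjecture of Beilinson for `L/K` if `L` is contained in an abelian extension of a
# normal field `F`: reduction to the base fields inside `F`

`N/k` is a Galois extension of number fields and `A` an abelian normal subgroup of its group, with
the fixed field `F`; so `F/k` is Galois and `N/F` abelian.

Suppose that Q1 holds for all abelian extensions `L'/K'`, `L' ⊆ N`, whose base field `K'` is contained
in `F`. Then Q1 holds for all abelian extensions `L/K` with `k ⊆ K ⊆ L ⊆ N`; here `K` is ANY field
between `k` and `N`, and not contained in or comparable with `F` in general.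

For `k = ℚ` and an imaginary quadratic field `F` the hypothesis concerns the base fields `ℚ` and `F`
only; it holds by the theorems of Beilinson (`K' = ℚ`) and Deninger (`K' = F`). Since every abelian
extension of `F` is contained in an abelian extension of `F` which is normal over `ℚ`, this gives Q1
for all `L/K` such that `L` is contained in an abelian extension of an imaginary quadratic field; for
example for the real subfields `K` of ring class fields.

Idea of the proof. Let `χ` be a character of `U = Gal(N/K)`. The group `U` acts on the characters `ψ`
of `A` which agree with `χ` on `U ∩ A`, and `Ind χ` is the sum over the orbits of the characters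
induced from the characters `χ ψ` of the subgroups `U_ψ A`, `U_ψ` the stabiliser of `ψ`. These contain
`A`. The `ψ` have values in a larger field; the components of Q1 are compared by means of one
automorphism, whose determinants on the `χ`-parts depend on the induced characters only, and the
field of coefficients descends.
-/

set_option autoImplicit false

namespace Pool.Agent.Results.MP_a93ca1_nt.InsideAbelianExtensions

open Pool.Agent.V8H87.EB

/-- **If Q1 holds over all base fields `K' = N^V ⊆ F = N^A`, then it holds for all `L/K`, `K = N^U`,
`L = N^W`; `A` is an abelian normal subgroup of `Gal(N/k)`.** -/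
theorem result (k N : Type) [Field k] [Field N] [NumberField k] [NumberField N] [Algebra k N]
    [FiniteDimensional k N] [IsGalois k N] (w : ℕ) (D : Borel k N w)
    (A : Subgroup (N ≃ₐ[k] N)) [A.Normal] (hA : ∀ a ∈ A, ∀ b ∈ A, a * b = b * a)
    (h : ∀ V W : Subgroup (N ≃ₐ[k] N), A ≤ V → W ≤ V → Q1 D V W)
    (U W : Subgroup (N ≃ₐ[k] N)) : Q1 D U W :=
  D.q1_of_normal A hA h U W

end Pool.Agent.Results.MP_a93ca1_nt.InsideAbelianExtensions
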