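import Pool.Agent.V8H87.EB.SN.Main

/-!
# The equivariant conjecture of Beilinson inside the extensions with a symmetric Galois group

`k` is any number field and `N/k` a Galois extension whose group is isomorphic to the symmetric group
`S_n`. We prove Q1 for all abelian extensions `L/K` with `k ⊆ K ⊆ L ⊆ N` and all `w > 1`. For
example, `K` can be the fixed field of an `n`-cycle and `L = N`, so that all cyclic groups, and all
abelian groups which are subgroups of `S_n`, occur as `Gal(L/K)`; the fields `K` are not abelian over
`ℚ`, and they are not totally real or imaginary quadratic in general.

Idea of the proof. The characters `χ` of `Gal(L/K)` are not rational, but their induced characters to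
`S_n` are; we show that `Ind χ` is an integral combination of characters induced from quadratic
characters of subgroups: the characteristic of `Ind χ` is a symmetric polynomial in `n` variables
whose coefficients are traces of idempotents, hence natural numbers; by the fundamental theorem on
symmetric polynomials over `ℤ` it is an integral polynomial in the `e_k`, and products of the `e_k`
are the characteristics of the characters induced from the sign characters of the Young subgroups.
Class functions on `S_n` are determined by the characteristic. Then Q1 for `χ` follows from the theorem
of Borel for the fixed fields of the subgroups of `S_n`, since the obstruction to Q1 is a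
multiplicative function of the induced character, compatible with all embeddings of the field of
values.
-/

set_option autoImplicit false

namespace Pool.Agent.Results.MP_a93ca1_nt.SymmetricGroups

open Pool.Agent.V8H87.EB

/-- **Q1 for all abelian extensions `L/K`, `K = N^U`, `L = N^W`, inside a Galois extension `N/k` with
`Gal(N/k) ≅ S_n`.** -/
theorem result (k N : Type) [Field k] [Field N] [NumberField k] [NumberField N] [Algebra k N]
    [FiniteDimensional k N] [IsGalois k N] (w : ℕ) (D : Borel k N w) (n : ℕ)
    (e : (N ≃ₐ[k] N) ≃* Equiv.Perm (Fin n)) (U W : Subgroup (N ≃ₐ[k] N)) :
    Q1 D U W :=
  D.q1_of_good ((goodGroup_perm n).of_equiv e) U W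

end Pool.Agent.Results.MP_a93ca1_nt.SymmetricGroups
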